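import Pool.Agent.Q296.ApBeat

/-!
# MP_6bff71_co, Q1: yes, for all `k ≥ 3` and `r ≥ 2`
-/

namespace Pool.Agent.Results.MP_6bff71_co.BeatsRandom

open Finset Pool.Agent.Q296.ApCount Pool.Agent.Q296.ApBeat

/-- The number of monochromatic `k`-term arithmetic progressions `a, a+d, …, a+(k-1)d`
(`a ≥ 1`, `d ≥ 1`, `a+(k-1)d ≤ n`) of the colouring `χ` of `[n]`. -/
def monoCount (k n : ℕ) {r : ℕ} (χ : ℕ → Fin r) : ℕ :=
  (((Icc 1 n) ×ˢ (Icc 1 n)).filter (fun x : ℕ × ℕ =>
    x.1 + (k - 1) * x.2 ≤ n ∧ ∀ i < k, χ (x.1 + i * x.2) = χ x.1)).card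

lemma monoCount_eq (q n : ℕ) {r : ℕ} (χ : ℕ → Fin r) : monoCount (q + 2) n χ = M q n χ := by
  unfold monoCount M P
  rw [filter_filter]
  rfl

/-- number of progressions -/
lemma card_P (q n m ρ : ℕ) (hn : n = (q + 1) * m + ρ) (hρ : ρ ≤ q) :
    2 * (P q n).card + (q + 1) * (m * (m + 1)) = 2 * (n * m) := by
  have h1 : (P q n).card = ∑ d ∈ Icc 1 m, (n - (q + 1) * d) := by
    rw [card_eq_sum_card_fiberwise (f := fun x : ℕ × ℕ => x.2) (t := Icc 1 m)]
    · apply sum_congr rfl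
      intro d hd
      have hd' := mem_Icc.mp hd
      have : (P q n).filter (fun x => x.2 = d) = (Icc 1 (n - (q + 1) * d)) ×ˢ {d} := by
        ext ⟨a, e⟩
        simp only [mem_filter, mem_product, mem_Icc, mem_singleton]
        constructor
        · rintro ⟨hP, rfl⟩
          obtain ⟨h1, h2, h3⟩ := mem_P.mp hP
          exact ⟨⟨h1, by omega⟩, rfl⟩
        · rintro ⟨⟨h1, h2⟩, rfl⟩
          exact ⟨mem_P.mpr ⟨h1, hd'.1, by omega⟩, rfl⟩
      rw [this, card_product, card_singleton, Nat.card_Icc]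
      omega
    · rintro ⟨a, d⟩ hP
      obtain ⟨h1, h2, h3⟩ := mem_P.mp hP
      simp only [coe_Icc, Set.mem_Icc]
      refine ⟨h2, ?_⟩
      by_contra hc
      push Not at hc
      have h4 : (q + 1) * (m + 1) ≤ (q + 1) * d := Nat.mul_le_mul_left _ hc
      have h7 : (q + 1) * (m + 1) = (q + 1) * m + (q + 1) := by ring
      omega
  have h2 : ∀ t, t ≤ m → 2 * ∑ d ∈ Icc 1 t, (n - (q + 1) * d) + (q + 1) * (t * (t + 1)) =
      2 * (n * t) := by
    intro t
    induction t with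
    | zero => simp
    | succ t ih =>
      intro ht
      have ih' := ih (by omega)
      rw [sum_Icc_succ_top (by omega)]
      have h3 : (q + 1) * (t + 1) ≤ n := by
        have : (q + 1) * (t + 1) ≤ (q + 1) * m := Nat.mul_le_mul_left _ ht
        omega
      obtain ⟨u, hu⟩ : ∃ u, n = (q + 1) * (t + 1) + u := ⟨n - (q + 1) * (t + 1), by omega⟩
      have h4 : n - (q + 1) * (t + 1) = u := by omega
      rw [h4]
      have h5 : 2 * (n * (t + 1)) = 2 * (n * t) + 2 * n := by ring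
      rw [h5, ← ih']
      have h6 : (q + 1) * ((t + 1) * (t + 1 + 1)) = (q + 1) * (t * (t + 1)) +
        2 * ((q + 1) * (t + 1)) := by ring
      rw [h6]
      omega
  rw [h1]
  exact h2 m le_rfl

lemma card_P_bounds (q n : ℕ) :
    2 * ((q : ℝ) + 1) * (P q n).card ≤ (n : ℝ) ^ 2 ∧
    (n : ℝ) ^ 2 - 2 * (q + 1) * n ≤ 2 * ((q : ℝ) + 1) * (P q n).card := by
  set m := n / (q + 1) with hm
  set ρ := n % (q + 1) with hρ
  have hn : n = (q + 1) * m + ρ := (Nat.div_add_mod n (q + 1)).symm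
  have hρ' : ρ ≤ q := by
    have := Nat.mod_lt n (show 0 < q + 1 by omega)
    omega
  have h1 := card_P q n m ρ hn hρ'
  have h1' : 2 * ((P q n).card : ℝ) + (q + 1) * (m * (m + 1)) = 2 * (n * m) := by
    exact_mod_cast h1
  have hn' : (n : ℝ) = (q + 1) * m + ρ := by exact_mod_cast hn
  have hρ'' : (ρ : ℝ) ≤ q := by exact_mod_cast hρ'
  have hρ0 : (0 : ℝ) ≤ ρ := Nat.cast_nonneg _
  have hm0 : (0 : ℝ) ≤ m := Nat.cast_nonneg _
  have hq0 : (0 : ℝ) ≤ q := Nat.cast_nonneg _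
  have hρn : (ρ : ℝ) ≤ n := by
    rw [hn']
    nlinarith
  have h2 : 2 * ((q : ℝ) + 1) * (P q n).card = n ^ 2 - ρ ^ 2 - (q + 1) * (n - ρ) := by
    have : 2 * ((q : ℝ) + 1) * (P q n).card = (q + 1) * (2 * (n * m) - (q + 1) * (m * (m + 1))) := by
      rw [← h1']; ring
    rw [this, hn']
    ring
  rw [h2]
  constructor
  · nlinarith [mul_nonneg (show (0 : ℝ) ≤ q + 1 by linarith) (show (0 : ℝ) ≤ n - ρ by linarith),
      sq_nonneg (ρ : ℝ)]
  · have h3 : (ρ : ℝ) ^ 2 ≤ q * n := by nlinarith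
    nlinarith [mul_nonneg (show (0 : ℝ) ≤ q + 1 by linarith) hρ0]

section interp

variable {r : ℕ} (q n : ℕ)

lemma M_diff (χ χ' : ℕ → Fin r) (t : ℕ) (hd : ∀ y, y ≠ t → χ y = χ' y) :
    M q n χ ≤ M q n χ' + (q + 2) * n := by
  have hsub : (P q n).filter (fun x : ℕ × ℕ => ∀ i < q + 2, χ (x.1 + i * x.2) = χ x.1) ⊆
      (P q n).filter (fun x : ℕ × ℕ => ∀ i < q + 2, χ' (x.1 + i * x.2) = χ' x.1) ∪
      (range (q + 2)).biUnion (fun i => (P q n).filter (fun x => x.1 + i * x.2 = t)) := by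
    intro x hx
    rw [mem_filter] at hx
    rw [mem_union, mem_filter, mem_biUnion]
    by_cases hc : ∃ i ∈ range (q + 2), x.1 + i * x.2 = t
    · right
      obtain ⟨i, hi, h⟩ := hc
      exact ⟨i, hi, mem_filter.mpr ⟨hx.1, h⟩⟩
    · left
      push Not at hc
      refine ⟨hx.1, fun i hi => ?_⟩
      rw [← hd _ (hc i (mem_range.mpr hi)), hx.2 i hi]
      apply hd
      have := hc 0 (by simp)
      simpa using this
  unfold M
  refine (card_le_card hsub).trans ((card_union_le _ _).trans ?_)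
  apply Nat.add_le_add_left
  calc _ ≤ (range (q + 2)).card * n := by
        apply card_biUnion_le_card_mul
        intro i _
        calc _ ≤ (Icc 1 n).card := by
              apply card_le_card_of_injOn (fun x : ℕ × ℕ => x.2)
              · rintro ⟨a, d⟩ hx
                simp only [coe_filter, Set.mem_ofPred_eq] at hx
                obtain ⟨h1, h2, h3⟩ := mem_P.mp hx.1
                simp only [coe_Icc, Set.mem_Icc]
                have : d ≤ (q + 1) * d := Nat.le_mul_of_pos_left _ (by omega)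
                omega
              · rintro ⟨a, d⟩ hx ⟨a', d'⟩ hx' heq
                simp only [coe_filter, Set.mem_ofPred_eq] at hx hx'
                simp only at heq
                subst heq
                simp only [Prod.mk.injEq, and_true]
                omega
          _ = n := by simp
    _ = (q + 2) * n := by simp

lemma interp [NeZero r] (χ : ℕ → Fin r) (T : ℝ) (hT : (M q n χ : ℝ) ≤ T)
    (hT2 : T < M q n (fun _ => (0 : Fin r))) :
    ∃ χ' : ℕ → Fin r, T - (q + 2) * n ≤ M q n χ' ∧ (M q n χ' : ℝ) ≤ T := by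
  classical
  let mx : ℕ → ℕ → Fin r := fun t y => if y < t then χ y else 0
  have hend : M q n (mx (n + 1)) = M q n χ := by
    unfold M
    congr 1
    apply filter_congr
    rintro ⟨a, d⟩ hx
    obtain ⟨h1, h2, h3⟩ := mem_P.mp hx
    have hlt : ∀ i < q + 2, a + i * d < n + 1 := by
      intro i hi
      have : i * d ≤ (q + 1) * d := Nat.mul_le_mul_right _ (by omega)
      omega
    have ha : a < n + 1 := by omega
    constructor
    · intro h i hi
      have := h i hi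
      simpa [mx, hlt i hi, ha] using this
    · intro h i hi
      have := h i hi
      simpa [mx, hlt i hi, ha] using this
  have hex : ∃ t, (M q n (mx t) : ℝ) ≤ T := ⟨n + 1, by rw [hend]; exact hT⟩
  have hfind := Nat.find_spec hex
  have hmin := fun t (h : t < Nat.find hex) => Nat.find_min hex h
  generalize Nat.find hex = t0 at *
  have ht0 : t0 ≠ 0 := by
    rintro rfl
    have : mx 0 = fun _ => 0 := by funext y; simp [mx]
    rw [this] at hfind
    linarith
  obtain ⟨t, rfl⟩ : ∃ t, t0 = t + 1 := ⟨t0 - 1, by omega⟩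
  refine ⟨mx (t + 1), ?_, hfind⟩
  have h1 := hmin t (by omega)
  push Not at h1
  have h2 := M_diff q n (mx t) (mx (t + 1)) t (by
    intro y hy
    simp only [mx]
    by_cases h : y < t
    · rw [if_pos h, if_pos (by omega)]
    · rw [if_neg h, if_neg (by omega)])
  have h3 : (M q n (mx t) : ℝ) ≤ M q n (mx (t + 1)) + (q + 2) * n := by exact_mod_cast h2
  linarith

lemma M_const [NeZero r] : M q n (fun _ => (0 : Fin r)) = (P q n).card := by
  unfold M
  simp

end interp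

/-- the parameters: colourings beating the random rate by a fixed proportion -/
lemma exists_good_coloring (p q : ℕ) (hq : 1 ≤ q) : ∃ κ : ℝ, 0 < κ ∧ ∃ L : ℕ, ∀ n, L ≤ n →
    ∃ χ : ℕ → Fin (p + 2), (M q n χ : ℝ) ≤
      (1 / (2 * ((q : ℝ) + 1) * ((p : ℝ) + 2) ^ (q + 1)) - κ) * (n : ℝ) ^ 2 := by
  set B : ℝ := q * ((q + 2) ^ 2 + 1) with hB
  have hq' : (1 : ℝ) ≤ q := by exact_mod_cast hq
  have hB0 : 0 ≤ B := by positivity
  set K : ℝ := 1 + B with hK
  have hK1 : 1 ≤ K := by linarith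
  set F : ℕ := (q + 1).factorial with hF
  have hF1 : 1 ≤ F := Nat.factorial_pos _
  set A : ℕ := (4 * q + 12) * (q + 1) with hA
  have hA1 : 1 ≤ A := Nat.mul_pos (by omega) (by omega)
  set c1 : ℝ := 1 / (2 * A) with hc1
  have hA1' : (1 : ℝ) ≤ A := by exact_mod_cast hA1
  have hc1pos : 0 < c1 := by positivity
  have hc1le : c1 ≤ 1 := by
    rw [hc1, div_le_one (by positivity)]
    linarith
  have h2q : (1 : ℝ) ≤ 2 ^ (q + 2) := one_le_pow₀ (by norm_num)
  set ε : ℝ := c1 / (2 ^ (q + 2) * K ^ 2) with hε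
  have hε0 : 0 < ε := by positivity
  have hεK : ε * K = c1 / (2 ^ (q + 2) * K) := by
    rw [hε]; field_simp
  have hη1 : ε * K ≤ 1 := by
    rw [hεK, div_le_one (by positivity)]
    nlinarith
  refine ⟨ε ^ 2 * c1 ^ 2 / ((p : ℝ) + 2) ^ (q + 2), by positivity, F * A, fun n hn => ?_⟩
  set t := n / (F * A) with ht
  have hFA : 0 < F * A := Nat.mul_pos hF1 hA1
  have ht1 : 1 ≤ t := by
    rw [ht, Nat.le_div_iff_mul_le hFA]
    omega
  have htA : F * A * t ≤ n := Nat.mul_div_le n (F * A)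
  have htA2 : n < F * A * (t + 1) := by
    have := Nat.lt_mul_div_succ n hFA
    exact this
  set s := F * t with hs
  have hs1 : F ≤ s := Nat.le_mul_of_pos_right _ ht1
  have hqF : q + 1 ≤ F := Nat.self_le_factorial _
  set m := n / (q + 1) with hm
  set ρ := n % (q + 1) with hρ
  have hgood : Good q n s m ρ := by
    refine ⟨hq, (Nat.div_add_mod n (q + 1)).symm, ?_, hqF.trans hs1, ?_⟩
    · have := Nat.mod_lt n (show 0 < q + 1 by omega)
      omega
    · rw [hm, Nat.le_div_iff_mul_le (by omega)]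
      calc (4 * q + 12) * s * (q + 1) = F * A * t := by rw [hs, hA]; ring
        _ ≤ n := htA
  have hdvdF : ∀ D, 1 ≤ D → D ≤ q + 1 → D ∣ s := by
    intro D h1 h2
    exact (Nat.dvd_factorial h1 h2).mul_right t
  obtain ⟨w, hw⟩ := hdvdF q hq (by omega)
  have htot := total_le hgood hB0 hw (fun D h1 h2 => (hdvdF D h1 h2).mul_left 2)
  have hsw : (s : ℝ) = q * w := by exact_mod_cast hw
  have hBsw : B * ((s : ℝ) * w) = ((q + 2) ^ 2 + 1) * ((s : ℝ) * s) := by
    calc B * ((s : ℝ) * w) = ((q + 2) ^ 2 + 1) * ((s : ℝ) * (q * w)) := by rw [hB]; ring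
      _ = _ := by rw [← hsw]
  rw [hBsw] at htot
  have htot' : ∑ x ∈ P q n, ∑ j ∈ range (q + 2), ∑ i ∈ range j,
      g0 q s m B (x.1 + i * x.2) * g0 q s m B (x.1 + j * x.2) ≤ - ((s : ℝ) * s) := by
    linarith
  -- `s` is proportional to `n`
  have hsn : c1 * n ≤ s := by
    have h1 : n ≤ 2 * A * s := by
      calc n ≤ F * A * (t + 1) := htA2.le
        _ ≤ F * A * (2 * t) := Nat.mul_le_mul_left _ (by omega)
        _ = 2 * A * s := by rw [hs]; ring
    have h2 : (n : ℝ) ≤ 2 * A * s := by exact_mod_cast h1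
    rw [hc1, one_div, inv_mul_le_iff₀ (by positivity)]
    exact h2
  have hn0 : (0 : ℝ) ≤ n := Nat.cast_nonneg _
  have hss : c1 ^ 2 * n ^ 2 ≤ (s : ℝ) * s := by
    calc c1 ^ 2 * (n : ℝ) ^ 2 = (c1 * n) * (c1 * n) := by ring
      _ ≤ s * s := mul_le_mul hsn hsn (by positivity) (by positivity)
  -- the fractional colouring
  let h : ℕ → ℝ := fun y => ε * g0 q s m B y
  have hh : ∀ y, |h y| ≤ ε * K := by
    intro y
    simp only [h]
    rw [abs_mul, abs_of_pos hε0]
    exact mul_le_mul_of_nonneg_left (abs_g0_le q s m hB0 y) hε0.le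
  have hη0 : 0 ≤ ε * K := by positivity
  have hE := E_wt_le p q n hη0 hη1 hh
  obtain ⟨χ, hχ⟩ := exists_round (wt_nonneg p (fun y => (hh y).trans hη1)) (wt_sum p h) q n
  refine ⟨χ, hχ.trans (hE.trans ?_)⟩
  have hsum : ∑ x ∈ P q n, ∑ j ∈ range (q + 2), ∑ i ∈ range j,
      h (x.1 + i * x.2) * h (x.1 + j * x.2) = ε ^ 2 * ∑ x ∈ P q n, ∑ j ∈ range (q + 2),
        ∑ i ∈ range j, g0 q s m B (x.1 + i * x.2) * g0 q s m B (x.1 + j * x.2) := by
    simp only [h, mul_sum]
    apply sum_congr rfl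
    intro x _
    apply sum_congr rfl
    intro j _
    apply sum_congr rfl
    intro i _
    ring
  rw [hsum]
  obtain ⟨hPup, _⟩ := card_P_bounds q n
  have hP2 : ((P q n).card : ℝ) ≤ n ^ 2 := by
    have : (0 : ℝ) ≤ (P q n).card := Nat.cast_nonneg _
    nlinarith
  have hquart : 4 ^ (q + 2) * (ε * K) ^ 4 * ((P q n).card : ℝ) ≤ ε ^ 2 * (s * s) := by
    have e1 : (4 : ℝ) ^ (q + 2) * (ε * K) ^ 4 = ε ^ 2 * c1 ^ 2 := by
      have h4 : (4 : ℝ) ^ (q + 2) = 2 ^ (q + 2) * 2 ^ (q + 2) := by rw [← mul_pow]; norm_num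
      have : (ε * K) ^ 4 = ε ^ 2 * (ε ^ 2 * K ^ 4) := by ring
      rw [this, h4]
      have : ε ^ 2 * K ^ 4 = c1 ^ 2 / (2 ^ (q + 2)) ^ 2 := by
        rw [hε]; field_simp
      rw [this]
      field_simp
    rw [e1, mul_assoc]
    apply mul_le_mul_of_nonneg_left _ (by positivity)
    calc c1 ^ 2 * ((P q n).card : ℝ) ≤ c1 ^ 2 * (n : ℝ) ^ 2 := by
          apply mul_le_mul_of_nonneg_left hP2 (by positivity)
      _ ≤ (s : ℝ) * s := hss
  have hnum : ((p : ℝ) + 2) * (P q n).card + 2 * (ε ^ 2 * ∑ x ∈ P q n, ∑ j ∈ range (q + 2),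
        ∑ i ∈ range j, g0 q s m B (x.1 + i * x.2) * g0 q s m B (x.1 + j * x.2)) +
        4 ^ (q + 2) * (ε * K) ^ 4 * (P q n).card ≤
      ((p : ℝ) + 2) * (n ^ 2 / (2 * (q + 1))) - ε ^ 2 * (c1 ^ 2 * n ^ 2) := by
    have e1 : ((p : ℝ) + 2) * (P q n).card ≤ ((p : ℝ) + 2) * (n ^ 2 / (2 * (q + 1))) := by
      apply mul_le_mul_of_nonneg_left _ (by positivity)
      rw [le_div_iff₀ (by positivity)]
      linarith
    have e2 : ε ^ 2 * ∑ x ∈ P q n, ∑ j ∈ range (q + 2),
        ∑ i ∈ range j, g0 q s m B (x.1 + i * x.2) * g0 q s m B (x.1 + j * x.2) ≤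
        ε ^ 2 * (- ((s : ℝ) * s)) := mul_le_mul_of_nonneg_left htot' (by positivity)
    have e3 : ε ^ 2 * (c1 ^ 2 * n ^ 2) ≤ ε ^ 2 * ((s : ℝ) * s) :=
      mul_le_mul_of_nonneg_left hss (by positivity)
    linarith
  refine (div_le_div_of_nonneg_right hnum (by positivity)).trans (le_of_eq ?_)
  have hp2 : ((p : ℝ) + 2) ≠ 0 := by positivity
  have hq1 : ((q : ℝ) + 1) ≠ 0 := by positivity
  field_simp
  ring

/-- **Q1**: for every `k ≥ 3` and `r ≥ 2` there are `δ` strictly below the random rate and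
`r`-colourings `χ n` of `[n]` with `δ n² + O(n)` monochromatic `k`-term progressions. -/
theorem result (k r : ℕ) (hk : 3 ≤ k) (hr : 2 ≤ r) :
    ∃ δ : ℝ, δ < 1 / (2 * ((k : ℝ) - 1) * (r : ℝ) ^ (k - 1)) ∧
      ∃ χ : ℕ → ℕ → Fin r, ∃ C : ℝ, ∀ n : ℕ,
        |(monoCount k n (χ n) : ℝ) - δ * (n : ℝ) ^ 2| ≤ C * n := by
  obtain ⟨q, rfl⟩ : ∃ q, k = q + 2 := ⟨k - 2, by omega⟩
  obtain ⟨p, rfl⟩ : ∃ p, r = p + 2 := ⟨r - 2, by omega⟩
  have hq : 1 ≤ q := by omega
  obtain ⟨κ, hκ, L, hL⟩ := exists_good_coloring p q hq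
  set R : ℝ := 1 / (2 * ((q : ℝ) + 1) * ((p : ℝ) + 2) ^ (q + 1)) with hR
  have hRle : R ≤ 1 / (2 * ((q : ℝ) + 1)) := by
    rw [hR]
    apply one_div_le_one_div_of_le (by positivity)
    have : (1 : ℝ) ≤ ((p : ℝ) + 2) ^ (q + 1) := one_le_pow₀ (by linarith [(Nat.cast_nonneg p : (0:ℝ) ≤ p)])
    have h2 : (0 : ℝ) ≤ 2 * ((q : ℝ) + 1) := by positivity
    nlinarith
  set δ := R - κ with hδ
  refine ⟨δ, ?_, ?_⟩
  · have : (1 : ℝ) / (2 * (((q + 2 : ℕ) : ℝ) - 1) * ((p + 2 : ℕ) : ℝ) ^ (q + 2 - 1)) = R := by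
      rw [hR, show q + 2 - 1 = q + 1 by omega]
      push_cast
      congr 3
      ring
    rw [this]
    linarith
  · have key : ∀ n : ℕ, ∃ χ : ℕ → Fin (p + 2),
        |(M q n χ : ℝ) - δ * (n : ℝ) ^ 2| ≤ ((q + 2) + (1 + |δ|) * L) * n := by
      intro n
      have hn0 : (0 : ℝ) ≤ n := Nat.cast_nonneg _
      have hL0 : (0 : ℝ) ≤ L := Nat.cast_nonneg _
      have hδ0 : 0 ≤ |δ| := abs_nonneg _
      obtain ⟨hPup, hPlow⟩ := card_P_bounds q n
      have hPc : (0 : ℝ) ≤ (P q n).card := Nat.cast_nonneg _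
      have hP2 : ((P q n).card : ℝ) ≤ n ^ 2 := by
        have : (0 : ℝ) ≤ q := Nat.cast_nonneg _
        nlinarith
      by_cases hn : L ≤ n
      · obtain ⟨χ, hχ⟩ := hL n hn
        rcases lt_or_ge (δ * (n : ℝ) ^ 2) (M q n (fun _ => (0 : Fin (p + 2)))) with h | h
        · obtain ⟨χ', h1, h2⟩ := interp q n χ (δ * (n : ℝ) ^ 2) hχ h
          refine ⟨χ', ?_⟩
          rw [abs_le]
          have : 0 ≤ (1 + |δ|) * L * n := by positivity
          constructor <;> nlinarith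
        · refine ⟨fun _ => 0, ?_⟩
          rw [M_const] at h ⊢
          have h3 : δ * (n : ℝ) ^ 2 ≤ 1 / (2 * ((q : ℝ) + 1)) * (n : ℝ) ^ 2 := by
            apply mul_le_mul_of_nonneg_right _ (by positivity)
            linarith
          have h4 : 1 / (2 * ((q : ℝ) + 1)) * (n : ℝ) ^ 2 ≤ (P q n).card + n := by
            rw [one_div, inv_mul_le_iff₀ (by positivity)]
            linarith
          rw [abs_le]
          have h5 : 0 ≤ (1 + |δ|) * L * n := by positivity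
          have h6 : (n : ℝ) ≤ (q + 2) * n := by
            have : (0 : ℝ) ≤ q := Nat.cast_nonneg _
            nlinarith
          constructor <;> nlinarith
      · push Not at hn
        refine ⟨fun _ => 0, ?_⟩
        rw [M_const]
        have hnL : (n : ℝ) ≤ L := by exact_mod_cast hn.le
        have hnn : (n : ℝ) ^ 2 ≤ L * n := by nlinarith
        calc |((P q n).card : ℝ) - δ * (n : ℝ) ^ 2| ≤ |((P q n).card : ℝ)| + |δ * (n : ℝ) ^ 2| :=
              abs_sub _ _
          _ = (P q n).card + |δ| * (n : ℝ) ^ 2 := by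
              rw [abs_of_nonneg hPc, abs_mul, abs_of_nonneg (by positivity : (0 : ℝ) ≤ (n : ℝ) ^ 2)]
          _ ≤ n ^ 2 + |δ| * (n : ℝ) ^ 2 := by linarith
          _ = (1 + |δ|) * (n : ℝ) ^ 2 := by ring
          _ ≤ (1 + |δ|) * (L * n) := by gcongr
          _ ≤ _ := by
            have : 0 ≤ ((q : ℝ) + 2) * n := by positivity
            nlinarith
    choose χ hχ using key
    refine ⟨χ, ((q + 2) + (1 + |δ|) * L), fun n => ?_⟩
    rw [monoCount_eq]
    exact hχ n

end Pool.Agent.Results.MP_6bff71_co.BeatsRandom
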